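import Mathlib
import Pool.Agent.H.MP_67c6ba_gt.A

open TopologicalSpace

namespace Pool.Agent.Results.MP_67c6ba_gt.RealNot

/-- `G` is S-separable -/
def SSep (G : Type) [TopologicalSpace G] [Group G] : Prop :=
  ∀ (H : Type) [TopologicalSpace H] [Group H] [IsTopologicalGroup H] [T2Space H],
    (∀ K : Subgroup H, IsClosed (K : Set H) → SeparableSpace K) →
    ∀ L : Subgroup (G × H), IsClosed (L : Set (G × H)) → SeparableSpace L

theorem result : ¬ SSep (Multiplicative ℝ) ∧
    ∃ (G : Type) (_ : TopologicalSpace G) (_ : Group G), IsTopologicalGroup G ∧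
      SeparableSpace G ∧ MetrizableSpace G ∧ ¬ SSep G := by
  have h : ¬ SSep (Multiplicative ℝ) := fun h => by
    obtain ⟨H, _, _, _, _, hH, L, hL, hL'⟩ := Pool.Agent.H.MP_67c6ba_gt.main (Multiplicative ℝ)
      (MonoidHom.id _) continuous_id Function.surjective_id
    exact hL' (h H hH L hL)
  exact ⟨h, Multiplicative ℝ, inferInstance, inferInstance, inferInstance,
    inferInstanceAs (SeparableSpace ℝ), inferInstanceAs (MetrizableSpace ℝ), h⟩

end Pool.Agent.Results.MP_67c6ba_gt.RealNot
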